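import Pool.Agent.H82.EUC.Stmts6

/-!
Row XPS: points of paths of independent edges have different coordinates (single-peaked
preferences).
-/

set_option autoImplicit false

namespace Pool.EUC

theorem xps_thm (h1 : DMG_S) (h2 : DWG_S) : XPS_S := by
  intro n I hI V G F hF u v k l huv hkl huk hul hvk hvl z t hz ht
  have hM := hI.iM
  have hW := hI.iW
  obtain ⟨hz1, hz2⟩ := hz
  obtain ⟨ht1, ht2⟩ := ht
  have hw : ∀ w, (WvG F u v w ∨ WvG F v u w) → (WvG F k l w ∨ WvG F l k w) → False := by
    intro w ha hb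
    rcases ha with ha | ha <;> rcases hb with hb | hb
    · exact h2 (Fin n) V G I.dM I.dW hM hW F hF u v l k huv hkl.symm hul huk hvl hvk w ha hb
    · exact h2 (Fin n) V G I.dM I.dW hM hW F hF u v k l huv hkl huk hul hvk hvl w ha hb
    · exact h2 (Fin n) V G I.dM I.dW hM hW F hF v u l k huv.symm hkl.symm hvl hvk hul huk
        w ha hb
    · exact h2 (Fin n) V G I.dM I.dW hM hW F hF v u k l huv.symm hkl hvk hvl huk hul w ha hb
  have hm : ∀ m, (MvG F u v m ∨ MvG F v u m) → (MvG F k l m ∨ MvG F l k m) → False := by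
    intro w ha hb
    rcases ha with ha | ha <;> rcases hb with hb | hb
    · exact h1 (Fin n) V G I.dM I.dW hM hW F hF u v l k huv hkl.symm hul huk hvl hvk w ha hb
    · exact h1 (Fin n) V G I.dM I.dW hM hW F hF u v k l huv hkl huk hul hvk hvl w ha hb
    · exact h1 (Fin n) V G I.dM I.dW hM hW F hF v u l k huv.symm hkl.symm hvl hvk hul huk
        w ha hb
    · exact h1 (Fin n) V G I.dM I.dW hM hW F hF v u k l huv.symm hkl hvk hvl huk hul w ha hb
  constructor
  · intro h
    exact hw z.1 hz1 (hI.jW h ▸ ht1)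
  · intro h
    exact hm z.2 hz2 (hI.jM h ▸ ht2)

end Pool.EUC
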