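import Pool.Agent.H82.EUC.Stmts

/-!
Row XPT: points of paths of independent edges have different coordinates.
-/

set_option autoImplicit false

namespace Pool.EUC

theorem xpt_thm (h1 : DSM_S) (h2 : DSW_S) : XPT_S := by
  intro n I hM hW F hF u v k l huv huk hul hvk hvl hkl z t hz ht
  obtain ⟨hz1, hz2⟩ := hz
  obtain ⟨ht1, ht2⟩ := ht
  have hw : ∀ w, (Wv F u v w ∨ Wv F v u w) → (Wv F k l w ∨ Wv F l k w) → False := by
    intro w ha hb
    rcases ha with ha | ha <;> rcases hb with hb | hb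
    · exact h2 (Fin n) I.dM I.dW hM hW F hF u v l k huv hul huk hvl hvk (Ne.symm hkl) w ha hb
    · exact h2 (Fin n) I.dM I.dW hM hW F hF u v k l huv huk hul hvk hvl hkl w ha hb
    · exact h2 (Fin n) I.dM I.dW hM hW F hF v u l k (Ne.symm huv) hvl hvk hul huk
        (Ne.symm hkl) w ha hb
    · exact h2 (Fin n) I.dM I.dW hM hW F hF v u k l (Ne.symm huv) hvk hvl huk hul hkl w ha hb
  have hm : ∀ m, (Mv F u v m ∨ Mv F v u m) → (Mv F k l m ∨ Mv F l k m) → False := by
    intro w ha hb
    rcases ha with ha | ha <;> rcases hb with hb | hb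
    · exact h1 (Fin n) I.dM I.dW hM hW F hF u v l k huv hul huk hvl hvk (Ne.symm hkl) w ha hb
    · exact h1 (Fin n) I.dM I.dW hM hW F hF u v k l huv huk hul hvk hvl hkl w ha hb
    · exact h1 (Fin n) I.dM I.dW hM hW F hF v u l k (Ne.symm huv) hvl hvk hul huk
        (Ne.symm hkl) w ha hb
    · exact h1 (Fin n) I.dM I.dW hM hW F hF v u k l (Ne.symm huv) hvk hvl huk hul hkl w ha hb
  constructor
  · intro h
    have h3 : z.1 = t.1 := by
      apply hM z.1
      simp only [Inst.dM, h]
    exact hw z.1 hz1 (h3 ▸ ht1)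
  · intro h
    have h3 : z.2 = t.2 := by
      apply hW z.2
      simp only [Inst.dW, h]
    exact hm z.2 hz2 (h3 ▸ ht2)

end Pool.EUC
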